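import Mathlib
import Pool.Agent.H577R3.RM.Stmts

/-!
Project RANDMETAB (helper577), task CCa (helper174).
-/

set_option autoImplicit false

namespace Pool.Agent.H577R3.RM

theorem cca_count {K : Type} [Field K] [CharZero K] {N : ℕ} (b : Fin N → K)
    (hb : ∃ a, b a ≠ 0) (S : Finset ℕ)
    (hS : ∀ T ∈ S, ∑ a : Fin N, (T : K) ^ (a : ℕ) * b a = 0) : S.card ≤ N := by
  classical
  set P : Polynomial K := ∑ a : Fin N, Polynomial.C (b a) * Polynomial.X ^ (a : ℕ) with hPdef
  have hcoeff : ∀ a : Fin N, P.coeff a = b a := by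
    intro a
    rw [hPdef, Polynomial.finsetSum_coeff]
    rw [Finset.sum_eq_single a]
    · simp
    · intro c _ hca
      rw [Polynomial.coeff_C_mul, Polynomial.coeff_X_pow, if_neg, mul_zero]
      intro h
      exact hca (Fin.ext h).symm
    · intro h
      exact absurd (Finset.mem_univ _) h
  have hP : P ≠ 0 := by
    obtain ⟨a, ha⟩ := hb
    intro h0
    apply ha
    rw [← hcoeff a, h0, Polynomial.coeff_zero]
  have hdeg : P.natDegree ≤ N := by
    rw [hPdef]
    apply Polynomial.natDegree_sum_le_of_forall_le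
    intro a _
    exact (Polynomial.natDegree_C_mul_X_pow_le _ _).trans a.2.le
  have h1 : S.card ≤ P.roots.toFinset.card := by
    apply Finset.card_le_card_of_injOn (fun T : ℕ => (T : K))
    · intro T hT
      have := hS T hT
      simp only [Finset.mem_coe, Multiset.mem_toFinset, Polynomial.mem_roots hP,
        Polynomial.IsRoot.def]
      rw [hPdef, Polynomial.eval_finsetSum, ← this]
      refine Finset.sum_congr rfl fun a _ => ?_
      rw [Polynomial.eval_mul, Polynomial.eval_C, Polynomial.eval_pow, Polynomial.eval_X,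
        mul_comm]
    · intro T _ T' _ h
      exact Nat.cast_injective h
  calc S.card ≤ P.roots.toFinset.card := h1
    _ ≤ Multiset.card P.roots := Multiset.toFinset_card_le _
    _ ≤ P.natDegree := Polynomial.card_roots' P
    _ ≤ N := hdeg

theorem cca_charZero {K : Type} [Field K] {n : ℕ} (C : Finset (Fin n)) (θ : Fin n → Kˣ)
    (h : Gen0 C θ) : CharZero K := by
  apply charZero_of_inj_zero
  intro m hm
  have h1 : evC C θ (MvPolynomial.C (m : ℤ)) = 0 := by
    rw [evC, MvPolynomial.eval₂Hom_C]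
    simpa using hm
  have h2 : MvPolynomial.C (m : ℤ) ∈ RingHom.ker (evC C θ) := h1
  rw [h] at h2
  have h3 : (MvPolynomial.C (m : ℤ) : MvPolynomial {c // c ∈ C} ℤ) = 0 := h2
  rw [MvPolynomial.C_eq_zero] at h3
  exact_mod_cast h3

theorem taskCCa (h : TaskCT) : TaskCCa := by
  classical
  intro n
  set M : ℕ := n ^ n + n with hM
  refine ⟨(n + M) * M, ?_⟩
  intro C E q w ι _ hh hE hq hqE hcard hne
  set N : ℕ := Fintype.card ι with hN
  obtain ⟨TT, hTT, hker⟩ := h n C q w ⊥ hq
  let e : ι ≃ Fin N := Fintype.equivFin ι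
  let HT : ℕ → Lam n := fun T => ∑ a, ((T : ℤ) ^ (e a : ℕ)) • hh a
  -- evaluation
  have hev : ∀ (K : Type) [Field K] (θ : Fin n → Kˣ) (T : ℕ),
      evl θ (HT T) = ∑ a : Fin N, (T : K) ^ (a : ℕ) * evl θ (hh (e.symm a)) := by
    intro K _ θ T
    show evl θ (∑ a, ((T : ℤ) ^ (e a : ℕ)) • hh a) = _
    rw [map_sum, ← e.sum_comp]
    refine Finset.sum_congr rfl fun a _ => ?_
    rw [map_zsmul, zsmul_eq_mul, e.symm_apply_apply]
    push_cast
    rfl
  let TT' : Finset (Ideal (Lam n)) := TT.filter fun I =>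
    ∃ (K : Type) (_ : Field K) (θ : Fin n → Kˣ), Rad C q w θ ∧ Gen0 C θ ∧
      RingHom.ker (evl θ) = I
  let R : Finset ℕ := Finset.range (q ^ n * N + 1)
  have hbad : ∀ I ∈ TT', (R.filter fun T => HT T ∈ I).card ≤ N := by
    intro I hI
    obtain ⟨_, K, _, θ, h1, h2, h3⟩ := Finset.mem_filter.1 hI
    have : CharZero K := cca_charZero C θ h2
    apply cca_count (fun a => evl θ (hh (e.symm a)))
    · obtain ⟨a, ha⟩ := hne K θ h1 h2
      exact ⟨e a, by simpa using ha⟩
    · intro T hT
      have h4 : HT T ∈ I := (Finset.mem_filter.1 hT).2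
      rw [← h3] at h4
      have h5 : evl θ (HT T) = 0 := h4
      rw [hev] at h5
      exact h5
  have hU : (TT'.biUnion fun I => R.filter fun T => HT T ∈ I).card < R.card := by
    calc (TT'.biUnion fun I => R.filter fun T => HT T ∈ I).card ≤ TT'.card * N :=
          Finset.card_biUnion_le_card_mul _ _ _ hbad
      _ ≤ q ^ n * N := Nat.mul_le_mul_right _ ((Finset.card_filter_le _ _).trans hTT)
      _ < R.card := by simp [R]
  obtain ⟨T, hTR, hTU⟩ : ∃ T ∈ R, T ∉ TT'.biUnion fun I => R.filter fun T => HT T ∈ I := by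
    by_contra hcon
    push Not at hcon
    exact absurd (Finset.card_le_card (show R ⊆ _ from hcon)) (not_le.2 hU)
  have hTle : T ≤ q ^ n * N := by
    have := Finset.mem_range.1 hTR
    omega
  refine ⟨fun a => (T : ℤ) ^ (e a : ℕ), ?_, ?_⟩
  · intro a
    have hNM : N ≤ M := hcard
    have h1 : T ≤ E ^ (n + M) := by
      calc T ≤ q ^ n * N := hTle
        _ ≤ E ^ n * E ^ M := by
            apply Nat.mul_le_mul (Nat.pow_le_pow_left hqE n)
            calc N ≤ M := hNM
              _ ≤ 2 ^ M := Nat.lt_two_pow_self.le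
              _ ≤ E ^ M := Nat.pow_le_pow_left hE M
        _ = E ^ (n + M) := (pow_add E n M).symm
    have h2 : T ^ (e a : ℕ) ≤ E ^ ((n + M) * M) := by
      calc T ^ (e a : ℕ) ≤ (E ^ (n + M)) ^ (e a : ℕ) := Nat.pow_le_pow_left h1 _
        _ ≤ (E ^ (n + M)) ^ M := by
            apply Nat.pow_le_pow_right
            · exact Nat.pow_pos (by omega)
            · exact (e a).2.le.trans hNM
        _ = E ^ ((n + M) * M) := by rw [pow_mul]
    show |(T : ℤ) ^ (e a : ℕ)| ≤ (E : ℤ) ^ ((n + M) * M)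
    rw [abs_of_nonneg (by positivity)]
    exact_mod_cast h2
  · intro K _ θ h1 h2 h3
    apply hTU
    rw [Finset.mem_biUnion]
    refine ⟨RingHom.ker (evl θ), ?_, ?_⟩
    · rw [Finset.mem_filter]
      exact ⟨hker K θ h1 h2, K, _, θ, h1, h2, rfl⟩
    · rw [Finset.mem_filter]
      exact ⟨hTR, h3⟩

end Pool.Agent.H577R3.RM
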